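import Mathlib

namespace Pool.Agent.Work.MP_c10eee_an

open Set Metric Filter Topology NNReal

/-- local solutions on `[-n, n]` -/
lemma local_sol {f : ℝ → ℝ} {K : ℝ≥0} (hK : LipschitzWith K f) {C : ℝ} (hC : ∀ t, |f t| ≤ C)
    (M e : ℝ) (n : ℕ) (hn : 0 < n) :
    ∃ γ : ℝ → ℝ × ℝ, γ 0 = (M, e) ∧ ∀ t ∈ Icc (-(n : ℝ)) n,
      HasDerivWithinAt γ ((γ t).2, f (γ t).1) (Icc (-(n : ℝ)) n) t := by
  have hC0 : 0 ≤ C := (abs_nonneg _).trans (hC 0)
  have hnR : (0 : ℝ) < n := by exact_mod_cast hn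
  set R : ℝ := 2 * n with hR
  have hR0 : 0 < R := by positivity
  -- scaled field
  let F : ℝ → ℝ × ℝ → ℝ × ℝ := fun _ y => (y.2 / R, R * f y.1)
  set A : ℝ := |R * e| + R * C * n + 1 with hA
  have hA0 : 0 < A := by positivity
  have hL : LipschitzWith (max (Real.toNNReal (1 / R)) (Real.toNNReal R * K)) (F 0) := by
    refine LipschitzWith.prodMk ?_ ?_
    · refine LipschitzWith.of_dist_le_mul fun x y => ?_
      rw [Real.coe_toNNReal _ (by positivity), Real.dist_eq,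
        show x.2 / R - y.2 / R = (x.2 - y.2) / R by ring, abs_div, abs_of_pos hR0]
      have : |x.2 - y.2| ≤ dist x y := by
        rw [← Real.dist_eq]; exact le_max_right _ _
      calc |x.2 - y.2| / R ≤ dist x y / R := div_le_div_of_nonneg_right this hR0.le
        _ = 1 / R * dist x y := by ring
    · refine LipschitzWith.of_dist_le_mul fun x y => ?_
      rw [NNReal.coe_mul, Real.coe_toNNReal _ hR0.le, Real.dist_eq, ← mul_sub, abs_mul,
        abs_of_pos hR0, mul_assoc R (K : ℝ)]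
      apply mul_le_mul_of_nonneg_left _ hR0.le
      have h1 := hK.dist_le_mul x.1 y.1
      rw [Real.dist_eq] at h1
      have : dist x.1 y.1 ≤ dist x y := le_max_left _ _
      exact h1.trans (mul_le_mul_of_nonneg_left this K.2)
  have hpl : IsPicardLindelof F (⟨0, by constructor <;> linarith⟩ : Icc (-(n : ℝ)) n)
      (M, R * e) (Real.toNNReal A) 0 (Real.toNNReal (max ((|R * e| + A) / R) (R * C)))
      (max (Real.toNNReal (1 / R)) (Real.toNNReal R * K)) := by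
    refine ⟨fun t _ => hL.lipschitzOnWith, fun x _ => continuousOn_const, ?_, ?_⟩
    · intro t _ x hx
      rw [Real.coe_toNNReal _ (le_max_of_le_right (by positivity))]
      rw [mem_closedBall, Real.coe_toNNReal _ hA0.le] at hx
      have hx2 : |x.2 - R * e| ≤ A := by
        rw [← Real.dist_eq]
        exact (le_max_right _ _ : dist x.2 (R * e) ≤ dist x (M, R * e)).trans hx
      rw [Prod.norm_def]
      apply max_le_max
      · show ‖x.2 / R‖ ≤ _
        rw [Real.norm_eq_abs, abs_div, abs_of_pos hR0]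
        apply div_le_div_of_nonneg_right _ hR0.le
        have : |x.2| ≤ |x.2 - R * e| + |R * e| := by
          have := abs_add_le (x.2 - R * e) (R * e)
          simpa using this
        linarith
      · show ‖R * f x.1‖ ≤ _
        rw [Real.norm_eq_abs, abs_mul, abs_of_pos hR0]
        exact mul_le_mul_of_nonneg_left (hC _) hR0.le
    · rw [Real.coe_toNNReal _ (le_max_of_le_right (by positivity)), Real.coe_toNNReal _ hA0.le]
      simp only [sub_zero, zero_sub, neg_neg, max_self, NNReal.coe_zero]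
      rw [max_mul_of_nonneg _ _ hnR.le]
      apply max_le
      · rw [div_mul_eq_mul_div, div_le_iff₀ hR0, hR]
        have : |R * e| ≤ A := by rw [hA]; nlinarith [mul_nonneg (mul_nonneg hR0.le hC0) hnR.le]
        rw [hR] at this
        nlinarith
      · rw [hA]; nlinarith [abs_nonneg (R * e)]
  obtain ⟨α, hα0, hα⟩ := hpl.exists_eq_forall_mem_Icc_hasDerivWithinAt₀
  refine ⟨fun t => ((α t).1, (α t).2 / R), ?_, ?_⟩
  · have : α 0 = (M, R * e) := hα0
    simp only [this]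
    congr 1
    field_simp
  · intro t ht
    have h1 := hα t ht
    have h2 : HasDerivWithinAt (fun t => (α t).1) ((α t).2 / R) (Icc (-(n : ℝ)) n) t :=
      (hasFDerivAt_fst (𝕜 := ℝ) (p := α t)).comp_hasDerivWithinAt t h1
    have h3 : HasDerivWithinAt (fun t => (α t).2) (R * f (α t).1) (Icc (-(n : ℝ)) n) t :=
      (hasFDerivAt_snd (𝕜 := ℝ) (p := α t)).comp_hasDerivWithinAt t h1
    have h4 := h3.div_const R
    have h5 : R * f (α t).1 / R = f (α t).1 := by field_simp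
    rw [h5] at h4
    exact h2.prodMk h4

/-- the first-order field -/
def fld (f : ℝ → ℝ) (y : ℝ × ℝ) : ℝ × ℝ := (y.2, f y.1)

lemma fld_lip {f : ℝ → ℝ} {K : ℝ≥0} (hK : LipschitzWith K f) : LipschitzWith (max 1 K) (fld f) := by
  refine LipschitzWith.prodMk ?_ ?_
  · exact LipschitzWith.prod_snd
  · have := hK.comp (LipschitzWith.prod_fst (α := ℝ) (β := ℝ))
    rwa [mul_one] at this

/-- uniqueness on symmetric intervals -/
lemma uniq {f : ℝ → ℝ} {K : ℝ≥0} (hK : LipschitzWith K f) {γ δ : ℝ → ℝ × ℝ} {T : ℝ}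
    (hT : 0 < T) (h0 : γ 0 = δ 0)
    (hγ : ∀ t ∈ Icc (-T) T, HasDerivWithinAt γ (fld f (γ t)) (Icc (-T) T) t)
    (hδ : ∀ t ∈ Icc (-T) T, HasDerivWithinAt δ (fld f (δ t)) (Icc (-T) T) t) :
    EqOn γ δ (Icc (-T) T) := by
  refine ODE_solution_unique_of_mem_Icc (v := fun _ => fld f) (s := fun _ => univ)
    (K := max 1 K) (t₀ := 0) (fun t _ => (fld_lip hK).lipschitzOnWith) ⟨by linarith, hT⟩
    (fun t ht => (hγ t ht).continuousWithinAt) (fun t ht => ?_) (fun _ _ => mem_univ _)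
    (fun t ht => (hδ t ht).continuousWithinAt) (fun t ht => ?_) (fun _ _ => mem_univ _) h0
  · exact (hγ t (Ioo_subset_Icc_self ht)).hasDerivAt (Icc_mem_nhds ht.1 ht.2)
  · exact (hδ t (Ioo_subset_Icc_self ht)).hasDerivAt (Icc_mem_nhds ht.1 ht.2)

/-- global solution -/
theorem global_sol {f : ℝ → ℝ} {K : ℝ≥0} (hK : LipschitzWith K f) {C : ℝ} (hC : ∀ t, |f t| ≤ C)
    (M e : ℝ) :
    ∃ V W : ℝ → ℝ, V 0 = M ∧ W 0 = e ∧ (∀ t, HasDerivAt V (W t) t) ∧
      ∀ t, HasDerivAt W (f (V t)) t := by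
  have hloc : ∀ n : ℕ, ∃ γ : ℝ → ℝ × ℝ, γ 0 = (M, e) ∧ ∀ t ∈ Icc (-((n + 1 : ℕ) : ℝ)) (n + 1 : ℕ),
      HasDerivWithinAt γ (fld f (γ t)) (Icc (-((n + 1 : ℕ) : ℝ)) (n + 1 : ℕ)) t := fun n =>
    local_sol hK hC M e (n + 1) (Nat.succ_pos n)
  choose γ hγ0 hγ using hloc
  have hcons : ∀ m n : ℕ, m ≤ n → ∀ t : ℝ, |t| ≤ (m + 1 : ℕ) → γ m t = γ n t := by
    intro m n hmn t ht
    have hT : (0 : ℝ) < (m + 1 : ℕ) := by positivity
    have hsub : Icc (-((m + 1 : ℕ) : ℝ)) (m + 1 : ℕ) ⊆ Icc (-((n + 1 : ℕ) : ℝ)) (n + 1 : ℕ) := by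
      have : ((m + 1 : ℕ) : ℝ) ≤ ((n + 1 : ℕ) : ℝ) := by exact_mod_cast Nat.succ_le_succ hmn
      exact Icc_subset_Icc (by linarith) this
    exact uniq hK hT ((hγ0 m).trans (hγ0 n).symm) (hγ m)
      (fun t ht => (hγ n t (hsub ht)).mono hsub) (abs_le.1 ht)
  let Γ : ℝ → ℝ × ℝ := fun t => γ ⌊|t|⌋₊ t
  have hΓ : ∀ n : ℕ, ∀ t : ℝ, |t| < (n + 1 : ℕ) → Γ t = γ n t := by
    intro n t ht
    apply hcons
    · have := (Nat.floor_lt (abs_nonneg t)).2 ht
      omega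
    · push_cast
      exact (Nat.lt_floor_add_one |t|).le
  have hder : ∀ t, HasDerivAt Γ (fld f (Γ t)) t := by
    intro t
    obtain ⟨n, hn⟩ := exists_nat_gt |t|
    have hn' : |t| < (n + 1 : ℕ) := by push_cast; linarith
    have hmem : t ∈ Ioo (-((n + 1 : ℕ) : ℝ)) (n + 1 : ℕ) := abs_lt.1 hn'
    rw [hΓ n t hn']
    have h1 := (hγ n t (Ioo_subset_Icc_self hmem)).hasDerivAt (Icc_mem_nhds hmem.1 hmem.2)
    refine h1.congr_of_eventuallyEq ?_
    filter_upwards [Ioo_mem_nhds hmem.1 hmem.2] with s hs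
    exact hΓ n s (abs_lt.2 hs)
  refine ⟨fun t => (Γ t).1, fun t => (Γ t).2, ?_, ?_, ?_, ?_⟩
  · show (γ ⌊|(0 : ℝ)|⌋₊ 0).1 = M
    rw [hγ0]
  · show (γ ⌊|(0 : ℝ)|⌋₊ 0).2 = e
    rw [hγ0]
  · intro t
    exact (hasFDerivAt_fst (𝕜 := ℝ) (p := Γ t)).comp_hasDerivAt t (hder t)
  · intro t
    exact (hasFDerivAt_snd (𝕜 := ℝ) (p := Γ t)).comp_hasDerivAt t (hder t)

/-- a solution that is affine on `[-1, 1]` when `f` vanishes there -/
theorem global_sol_affine {f : ℝ → ℝ} {K : ℝ≥0} (hK : LipschitzWith K f) {C : ℝ}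
    (hC : ∀ t, |f t| ≤ C) (M : ℝ) (hM : ∀ s ∈ Icc (-1 : ℝ) 1, f (M + s) = 0) :
    ∃ V W : ℝ → ℝ, (∀ s ∈ Icc (-1 : ℝ) 1, V s = M + s) ∧ (∀ t, HasDerivAt V (W t) t) ∧
      ∀ t, HasDerivAt W (f (V t)) t := by
  obtain ⟨V, W, hV0, hW0, hV, hW⟩ := global_sol hK hC M 1
  refine ⟨V, W, ?_, hV, hW⟩
  have h := uniq hK (γ := fun t => (V t, W t)) (δ := fun t => (M + t, 1)) (T := 1) one_pos
    (by simp [hV0, hW0]) (fun t _ => ((hV t).prodMk (hW t)).hasDerivWithinAt) (fun t ht => ?_)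
  · intro s hs
    exact congrArg Prod.fst (h hs)
  · have h1 : HasDerivAt (fun t : ℝ => M + t) 1 t := by
      simpa using (hasDerivAt_id t).const_add M
    have h2 : HasDerivAt (fun _ : ℝ => (1 : ℝ)) (f (M + t)) t := by
      rw [hM t ht]; exact hasDerivAt_const t 1
    exact (h1.prodMk h2).hasDerivWithinAt

end Pool.Agent.Work.MP_c10eee_an
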