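import Pool.Agent.Work.MP_c10eee_an.Topo

namespace Pool.Agent.Work.MP_c10eee_an

open Set Metric Filter Topology InnerProductSpace Laplacian

lemma line_second {f : E3 → ℝ} (hf : ContDiff ℝ 2 f) (x v : E3) (c0 c1 c2 c3 c4 c5 : ℝ)
    (h : ∀ t : ℝ, f (x + t • v) = c0 + c1 * t + c2 * t ^ 2 + c3 * t ^ 3 + c4 * t ^ 4 + c5 * t ^ 5) :
    iteratedFDeriv ℝ 2 f x ![v, v] = 2 * c2 := by
  rw [iteratedFDeriv_two_apply]
  simp only [Matrix.cons_val_zero, Matrix.cons_val_one]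
  have hd : Differentiable ℝ f := hf.differentiable (by norm_num)
  have hd2 : Differentiable ℝ (fderiv ℝ f) :=
    (hf.fderiv_right (m := 1) (by norm_num)).differentiable (by norm_num)
  have hline : ∀ t : ℝ, HasDerivAt (fun t : ℝ => x + t • v) v t := by
    intro t
    have := ((hasDerivAt_id t).smul_const v).const_add x
    simpa using this
  have h1 : ∀ t : ℝ, HasDerivAt (fun t : ℝ => f (x + t • v)) (fderiv ℝ f (x + t • v) v) t :=
    fun t => (hd (x + t • v)).hasFDerivAt.comp_hasDerivAt t (hline t)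
  have h2 : ∀ t : ℝ, fderiv ℝ f (x + t • v) v =
      c1 + 2 * c2 * t + 3 * c3 * t ^ 2 + 4 * c4 * t ^ 3 + 5 * c5 * t ^ 4 := by
    intro t
    have h3 : HasDerivAt (fun t : ℝ => c0 + c1 * t + c2 * t ^ 2 + c3 * t ^ 3 + c4 * t ^ 4 +
        c5 * t ^ 5) (c1 + 2 * c2 * t + 3 * c3 * t ^ 2 + 4 * c4 * t ^ 3 + 5 * c5 * t ^ 4) t := by
      have e1 := (hasDerivAt_id t).const_mul c1
      have e2 := ((hasDerivAt_id t).pow 2).const_mul c2
      have e3 := ((hasDerivAt_id t).pow 3).const_mul c3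
      have e4 := ((hasDerivAt_id t).pow 4).const_mul c4
      have e5 := ((hasDerivAt_id t).pow 5).const_mul c5
      have e6 := ((((e1.const_add c0).add e2).add e3).add e4).add e5
      exact e6.congr_deriv (by simp only [id]; push_cast; ring)
    have h4 := h1 t
    have h5 : (fun t : ℝ => f (x + t • v)) = fun t : ℝ => c0 + c1 * t + c2 * t ^ 2 + c3 * t ^ 3 +
      c4 * t ^ 4 + c5 * t ^ 5 := funext h
    rw [h5] at h4
    exact h4.unique h3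
  have h6 : HasDerivAt (fun t : ℝ => fderiv ℝ f (x + t • v) v) (fderiv ℝ (fderiv ℝ f) x v v) 0 := by
    have e0 : HasDerivAt (fun t : ℝ => fderiv ℝ f (x + t • v)) (fderiv ℝ (fderiv ℝ f) x v) 0 := by
      have e1 := (hd2 (x + (0 : ℝ) • v)).hasFDerivAt.comp_hasDerivAt (0 : ℝ) (hline 0)
      rw [zero_smul, add_zero] at e1
      exact e1
    have e2 := e0.clm_apply (hasDerivAt_const (0 : ℝ) v)
    simpa using e2
  have h7 : HasDerivAt (fun t : ℝ => c1 + 2 * c2 * t + 3 * c3 * t ^ 2 + 4 * c4 * t ^ 3 +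
      5 * c5 * t ^ 4) (2 * c2) 0 := by
    have e1 := (hasDerivAt_id (0 : ℝ)).const_mul (2 * c2)
    have e2 := ((hasDerivAt_id (0 : ℝ)).pow 2).const_mul (3 * c3)
    have e3 := ((hasDerivAt_id (0 : ℝ)).pow 3).const_mul (4 * c4)
    have e4 := ((hasDerivAt_id (0 : ℝ)).pow 4).const_mul (5 * c5)
    have e5 := (((e1.const_add c1).add e2).add e3).add e4
    exact e5.congr_deriv (by simp)
  have h8 : (fun t : ℝ => fderiv ℝ f (x + t • v) v) = fun t : ℝ => c1 + 2 * c2 * t +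
    3 * c3 * t ^ 2 + 4 * c4 * t ^ 3 + 5 * c5 * t ^ 4 := funext h2
  rw [h8] at h6
  exact h6.unique h7

lemma contDiff_coord (i : Fin 3) {n : WithTop ℕ∞} : ContDiff ℝ n (fun x : E3 => x i) :=
  (EuclideanSpace.proj i : E3 →L[ℝ] ℝ).contDiff

lemma contDiff_uu {n : WithTop ℕ∞} : ContDiff ℝ n uu := by
  unfold uu cA cB rr
  have h0 := contDiff_coord 0 (n := n)
  have h1 := contDiff_coord 1 (n := n)
  have h2 := contDiff_coord 2 (n := n)
  fun_prop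

lemma laplacian_uu (x : E3) : (Δ uu) x = 0 := by
  rw [laplacian_eq_iteratedFDeriv_orthonormalBasis uu (EuclideanSpace.basisFun (Fin 3) ℝ)]
  simp only [Fin.sum_univ_three, EuclideanSpace.basisFun_apply]
  have hc := contDiff_uu (n := 2)
  set a := x 0 with ha
  set b := x 1 with hb
  set c := x 2 with hc'
  rw [line_second hc x (EuclideanSpace.single 0 1) (uu x)
    (35 * a ^ 4 + 40 * a ^ 3 * b * c + 42 * a ^ 2 * b ^ 2 - 252 * a ^ 2 * c ^ 2 + 42 * a ^ 2 + 40 * a * b ^ 3 * c - 80 * a * b * c ^ 3 + 120 * a * b * c + 7 * b ^ 4 - 84 * b ^ 2 * c ^ 2 + 14 * b ^ 2 + 56 * c ^ 4 - 56 * c ^ 2)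
    (70 * a ^ 3 + 60 * a ^ 2 * b * c + 42 * a * b ^ 2 - 252 * a * c ^ 2 + 42 * a + 20 * b ^ 3 * c - 40 * b * c ^ 3 + 60 * b * c)
    (70 * a ^ 2 + 40 * a * b * c + 14 * b ^ 2 - 84 * c ^ 2 + 14)
    (35 * a + 10 * b * c) 7 ?_,
    line_second hc x (EuclideanSpace.single 1 1) (uu x)
    (10 * a ^ 4 * c + 28 * a ^ 3 * b + 60 * a ^ 2 * b ^ 2 * c - 40 * a ^ 2 * c ^ 3 + 60 * a ^ 2 * c + 28 * a * b ^ 3 - 168 * a * b * c ^ 2 + 28 * a * b + 50 * b ^ 4 * c - 120 * b ^ 2 * c ^ 3 + 180 * b ^ 2 * c + 16 * c ^ 5 - 80 * c ^ 3 + 16 * c)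
    (14 * a ^ 3 + 60 * a ^ 2 * b * c + 42 * a * b ^ 2 - 84 * a * c ^ 2 + 14 * a + 100 * b ^ 3 * c - 120 * b * c ^ 3 + 180 * b * c)
    (20 * a ^ 2 * c + 28 * a * b + 100 * b ^ 2 * c - 40 * c ^ 3 + 60 * c)
    (7 * a + 50 * b * c) (10 * c) ?_,
    line_second hc x (EuclideanSpace.single 2 1) (uu x)
    (10 * a ^ 4 * b - 168 * a ^ 3 * c + 20 * a ^ 2 * b ^ 3 - 120 * a ^ 2 * b * c ^ 2 + 60 * a ^ 2 * b - 168 * a * b ^ 2 * c + 224 * a * c ^ 3 - 112 * a * c + 10 * b ^ 5 - 120 * b ^ 3 * c ^ 2 + 60 * b ^ 3 + 80 * b * c ^ 4 - 240 * b * c ^ 2 + 16 * b)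
    (-84 * a ^ 3 - 120 * a ^ 2 * b * c - 84 * a * b ^ 2 + 336 * a * c ^ 2 - 56 * a - 120 * b ^ 3 * c + 160 * b * c ^ 3 - 240 * b * c)
    (-40 * a ^ 2 * b + 224 * a * c - 40 * b ^ 3 + 160 * b * c ^ 2 - 80 * b)
    (56 * a + 80 * b * c) (16 * b) ?_]
  · ring
  all_goals
    intro t
    unfold uu cA cB rr
    simp [← ha, ← hb, ← hc']
    ring

end Pool.Agent.Work.MP_c10eee_an
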