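import Pool.Agent.Work.MP_c10eee_an.Lap

namespace Pool.Agent.Work.MP_c10eee_an

open Set Metric Filter Topology

local instance : Fact (Module.finrank ℝ E3 = 3) := ⟨by simp⟩

lemma exists_basis {a : E3} (ha : ‖a‖ = 1) : ∃ b : OrthonormalBasis (Fin 3) ℝ E3, b 0 = a := by
  have hv : Orthonormal ℝ (({0} : Set (Fin 3)).domRestrict (fun _ : Fin 3 => a)) := by
    rw [orthonormal_iff_ite]
    rintro ⟨i, hi⟩ ⟨j, hj⟩
    have e : (⟨i, hi⟩ : ({0} : Set (Fin 3))) = ⟨j, hj⟩ := Subtype.ext (by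
      rw [mem_singleton_iff] at hi hj; show i = j; rw [hi, hj])
    rw [if_pos e]
    show inner ℝ a a = 1
    rw [real_inner_self_eq_norm_sq, ha]; norm_num
  obtain ⟨b, hb⟩ := hv.exists_orthonormalBasis_extension_of_card_eq (by simp)
  exact ⟨b, hb 0 rfl⟩

/-- grid points -/
noncomputable def gp (r : ℝ) (N : ℕ) (i : Fin N × Fin N × Fin N) : E3 :=
  !₂[r * (i.1 : ℕ) / N, r * (i.2.1 : ℕ) / N, r * (i.2.2 : ℕ) / N]

lemma gp_norm {r : ℝ} (hr : 0 < r) {N : ℕ} (hN : 0 < N) (i : Fin N × Fin N × Fin N) :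
    ‖gp r N i‖ < 2 * r := by
  have hNR : (0 : ℝ) < N := by exact_mod_cast hN
  have hco : ∀ k : Fin N, 0 ≤ r * (k : ℕ) / N ∧ r * (k : ℕ) / N ≤ r := by
    intro k
    have : ((k : ℕ) : ℝ) ≤ N := by exact_mod_cast k.2.le
    refine ⟨by positivity, ?_⟩
    rw [div_le_iff₀ hNR]
    exact mul_le_mul_of_nonneg_left this hr.le
  have h : ‖gp r N i‖ ^ 2 < (2 * r) ^ 2 := by
    rw [EuclideanSpace.real_norm_sq_eq, Fin.sum_univ_three]
    show (r * (i.1 : ℕ) / N) ^ 2 + (r * (i.2.1 : ℕ) / N) ^ 2 + (r * (i.2.2 : ℕ) / N) ^ 2 < _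
    have h1 := hco i.1
    have h2 := hco i.2.1
    have h3 := hco i.2.2
    have e1 : (r * (i.1 : ℕ) / N) ^ 2 ≤ r ^ 2 := pow_le_pow_left₀ h1.1 h1.2 2
    have e2 : (r * (i.2.1 : ℕ) / N) ^ 2 ≤ r ^ 2 := pow_le_pow_left₀ h2.1 h2.2 2
    have e3 : (r * (i.2.2 : ℕ) / N) ^ 2 ≤ r ^ 2 := pow_le_pow_left₀ h3.1 h3.2 2
    nlinarith [sq_pos_of_pos hr]
  exact lt_of_pow_lt_pow_left₀ 2 (by positivity) h

lemma coord_le_norm (x : E3) (k : Fin 3) : |x k| ≤ ‖x‖ := by
  have := PiLp.norm_apply_le x k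
  rwa [Real.norm_eq_abs] at this

lemma gp_sep {r : ℝ} (hr : 0 < r) {N : ℕ} (hN : 0 < N) {i j : Fin N × Fin N × Fin N}
    (hij : i ≠ j) : r / N ≤ ‖gp r N i - gp r N j‖ := by
  have hNR : (0 : ℝ) < N := by exact_mod_cast hN
  have key : ∀ k l : Fin N, k ≠ l → r / N ≤ |r * (k : ℕ) / N - r * (l : ℕ) / N| := by
    intro k l hkl
    have hne : (k : ℕ) ≠ (l : ℕ) := fun h => hkl (Fin.ext h)
    have e : r * (k : ℕ) / N - r * (l : ℕ) / N = (r / N) * (((k : ℕ) : ℝ) - ((l : ℕ) : ℝ)) := by ring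
    rw [e, abs_mul, abs_of_pos (by positivity)]
    have : (1 : ℝ) ≤ |((k : ℕ) : ℝ) - ((l : ℕ) : ℝ)| := by
      have h1 : (1 : ℤ) ≤ |((k : ℕ) : ℤ) - ((l : ℕ) : ℤ)| := by
        apply Int.one_le_abs
        omega
      exact_mod_cast h1
    calc r / N = r / N * 1 := by ring
      _ ≤ _ := mul_le_mul_of_nonneg_left this (by positivity)
  by_cases h1 : i.1 = j.1
  · by_cases h2 : i.2.1 = j.2.1
    · have h3 : i.2.2 ≠ j.2.2 := by
        intro h3
        exact hij (Prod.ext h1 (Prod.ext h2 h3))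
      exact (key _ _ h3).trans (coord_le_norm (gp r N i - gp r N j) 2)
    · exact (key _ _ h2).trans (coord_le_norm (gp r N i - gp r N j) 1)
  · exact (key _ _ h1).trans (coord_le_norm (gp r N i - gp r N j) 0)

/-- a bi-Lipschitz map cannot be too flat at a point -/
theorem no_flat {δ c C K η : ℝ} (hδ : 0 < δ) (hc : 0 < c) {Φ : E3 → E3}
    (hΦ : ∀ x ∈ ball (0 : E3) δ, ∀ y ∈ ball (0 : E3) δ,
      c * ‖x - y‖ ≤ ‖Φ x - Φ y‖ ∧ ‖Φ x - Φ y‖ ≤ C * ‖x - y‖)
    {a : E3} (ha : ‖a‖ = 1) (hη : 0 < η)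
    (hflat : ∀ x ∈ ball (0 : E3) η, |inner ℝ a (Φ x - Φ 0)| ≤ K * ‖x‖ ^ 2) : False := by
  obtain ⟨b, hb⟩ := exists_basis ha
  set C' : ℝ := |C| with hC'
  have hC'0 : 0 ≤ C' := abs_nonneg _
  set K' : ℝ := |K| with hK'
  have hK'0 : 0 ≤ K' := abs_nonneg _
  set κ : ℝ := 8 * C' / c with hκ
  have hκ0 : 0 ≤ κ := by positivity
  obtain ⟨N, hN⟩ := exists_nat_gt ((2 * κ + 3) ^ 2)
  have hNR : (0 : ℝ) < N := lt_trans (by positivity) hN
  have hN1 : (1 : ℝ) ≤ N := by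
    have : 1 ≤ N := by
      have : 0 < N := by exact_mod_cast hNR
      omega
    exact_mod_cast this
  have hNpos : 0 < N := by exact_mod_cast hNR
  -- radius
  obtain ⟨r, hr0, hr1, hr2, hr3⟩ : ∃ r : ℝ, 0 < r ∧ 2 * r ≤ δ ∧ 2 * r ≤ η ∧
      8 * K' * r ≤ c / (4 * N) := by
    refine ⟨min (min (δ / 2) (η / 2)) (c / (4 * N) / (8 * K' + 1)), ?_, ?_, ?_, ?_⟩
    · apply lt_min (lt_min (by positivity) (by positivity)) (by positivity)
    · have := (min_le_left (min (δ / 2) (η / 2)) (c / (4 * N) / (8 * K' + 1))).trans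
        (min_le_left _ _)
      linarith
    · have := (min_le_left (min (δ / 2) (η / 2)) (c / (4 * N) / (8 * K' + 1))).trans
        (min_le_right _ _)
      linarith
    · have h1 := min_le_right (min (δ / 2) (η / 2)) (c / (4 * N) / (8 * K' + 1))
      have h2 : 8 * K' * min (min (δ / 2) (η / 2)) (c / (4 * N) / (8 * K' + 1)) ≤
          8 * K' * (c / (4 * N) / (8 * K' + 1)) := mul_le_mul_of_nonneg_left h1 (by positivity)
      refine h2.trans ?_
      rw [mul_div_assoc', div_le_iff₀ (by positivity)]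
      have : 0 ≤ c / (4 * N) := by positivity
      nlinarith
  set h : ℝ := c * r / (4 * N) with hh
  have hh0 : 0 < h := by positivity
  have hx0 : (0 : E3) ∈ ball (0 : E3) δ := mem_ball_self hδ
  set w : Fin N × Fin N × Fin N → E3 := fun i => Φ (gp r N i) - Φ 0 with hw
  have hball : ∀ i, gp r N i ∈ ball (0 : E3) δ := fun i => by
    rw [mem_ball_zero_iff]; exact (gp_norm hr0 hNpos i).trans_le hr1
  have hball' : ∀ i, gp r N i ∈ ball (0 : E3) η := fun i => by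
    rw [mem_ball_zero_iff]; exact (gp_norm hr0 hNpos i).trans_le hr2
  have hwn : ∀ i, ‖w i‖ ≤ C' * (2 * r) := by
    intro i
    have h1 := (hΦ _ (hball i) _ hx0).2
    rw [sub_zero] at h1
    calc ‖w i‖ ≤ C * ‖gp r N i‖ := h1
      _ ≤ C' * ‖gp r N i‖ := mul_le_mul_of_nonneg_right (le_abs_self _) (norm_nonneg _)
      _ ≤ C' * (2 * r) := mul_le_mul_of_nonneg_left (gp_norm hr0 hNpos i).le hC'0
  set m : ℤ := ⌈κ * N⌉ with hm
  have hm0 : 0 ≤ m := Int.ceil_nonneg (by positivity)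
  have hcell : ∀ i, ∀ k : Fin 3, ⌊inner ℝ (b k) (w i) / h⌋ ∈ Finset.Icc (-m) m := by
    intro i k
    have h1 : |inner ℝ (b k) (w i)| ≤ C' * (2 * r) := by
      have := abs_real_inner_le_norm (b k) (w i)
      rw [b.orthonormal.1 k, one_mul] at this
      exact this.trans (hwn i)
    have h2 : |inner ℝ (b k) (w i) / h| ≤ κ * N := by
      rw [abs_div, abs_of_pos hh0, div_le_iff₀ hh0, hκ, hh]
      have : 8 * C' / c * N * (c * r / (4 * N)) = C' * (2 * r) := by field_simp; ring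
      rw [this]
      exact h1
    have h3 : κ * N ≤ m := Int.le_ceil _
    rw [Finset.mem_Icc]
    have h4 := abs_le.1 h2
    constructor
    · rw [Int.le_floor]; push_cast; linarith
    · have : (⌊inner ℝ (b k) (w i) / h⌋ : ℝ) ≤ m := (Int.floor_le _).trans (by linarith)
      exact_mod_cast this
  let F : Fin N × Fin N × Fin N → ℤ × ℤ := fun i =>
    (⌊inner ℝ (b 1) (w i) / h⌋, ⌊inner ℝ (b 2) (w i) / h⌋)
  have hmaps : ∀ i ∈ (Finset.univ : Finset (Fin N × Fin N × Fin N)),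
      F i ∈ (Finset.Icc (-m) m ×ˢ Finset.Icc (-m) m : Finset (ℤ × ℤ)) := by
    intro i _
    rw [Finset.mem_product]
    exact ⟨hcell i 1, hcell i 2⟩
  have hcard : (Finset.Icc (-m) m ×ˢ Finset.Icc (-m) m : Finset (ℤ × ℤ)).card <
      (Finset.univ : Finset (Fin N × Fin N × Fin N)).card := by
    rw [Finset.card_product, Int.card_Icc, Finset.card_univ, Fintype.card_prod,
      Fintype.card_prod, Fintype.card_fin]
    have e : (m + 1 - -m).toNat = (2 * m + 1).toNat := by congr 1; ring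
    rw [e]
    have h1 : (((2 * m + 1).toNat : ℕ) : ℝ) = 2 * m + 1 := by
      have : (((2 * m + 1).toNat : ℕ) : ℤ) = 2 * m + 1 := Int.toNat_of_nonneg (by omega)
      have h2 : ((((2 * m + 1).toNat : ℕ) : ℤ) : ℝ) = ((2 * m + 1 : ℤ) : ℝ) := by rw [this]
      rw [Int.cast_natCast] at h2
      rw [h2]
      push_cast
      ring
    have h2 : (m : ℝ) ≤ κ * N + 1 := (Int.ceil_lt_add_one _).le
    have h3 : (2 * (m : ℝ) + 1) ≤ N * (2 * κ + 3) := by nlinarith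
    have h4 : (0 : ℝ) ≤ m := by exact_mod_cast hm0
    have h5 : (2 * (m : ℝ) + 1) * (2 * m + 1) ≤ (N * (2 * κ + 3)) * (N * (2 * κ + 3)) :=
      mul_le_mul h3 h3 (by positivity) (by positivity)
    have h6 : (N * (2 * κ + 3)) * (N * (2 * κ + 3)) < (N : ℝ) * (N * N) := by
      have : (N * (2 * κ + 3)) * (N * (2 * κ + 3)) = (N * N : ℝ) * (2 * κ + 3) ^ 2 := by ring
      rw [this]
      calc (N * N : ℝ) * (2 * κ + 3) ^ 2 < (N * N : ℝ) * N :=
            mul_lt_mul_of_pos_left hN (by positivity)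
        _ = _ := by ring
    have h7 : (((2 * m + 1).toNat * (2 * m + 1).toNat : ℕ) : ℝ) < ((N * (N * N) : ℕ) : ℝ) := by
      push_cast
      rw [h1]
      exact lt_of_le_of_lt h5 h6
    exact_mod_cast h7
  obtain ⟨i, -, j, -, hij, hF⟩ := Finset.exists_ne_map_eq_of_card_lt_of_maps_to hcard hmaps
  -- contradiction
  have hfl : ∀ y z : ℝ, ⌊y⌋ = ⌊z⌋ → |y - z| ≤ 1 := fun y z hyz =>
    (Int.abs_sub_lt_one_of_floor_eq_floor hyz).le
  have hcomp : ∀ k : Fin 3, ⌊inner ℝ (b k) (w i) / h⌋ = ⌊inner ℝ (b k) (w j) / h⌋ →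
      inner ℝ (b k) (w i - w j) ^ 2 ≤ h ^ 2 := by
    intro k hk
    have h1 := hfl _ _ hk
    rw [← sub_div, abs_div, abs_of_pos hh0, div_le_one hh0, ← inner_sub_right] at h1
    rw [← sq_abs]
    exact pow_le_pow_left₀ (abs_nonneg _) h1 2
  have k1 := hcomp 1 (congrArg Prod.fst hF)
  have k2 := hcomp 2 (congrArg Prod.snd hF)
  have k0 : inner ℝ (b 0) (w i - w j) ^ 2 ≤ h ^ 2 := by
    have hb1 : ∀ i, |inner ℝ (b 0) (w i)| ≤ 4 * K' * r ^ 2 := by
      intro i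
      rw [hb]
      have h1 := hflat _ (hball' i)
      have h2 : K * ‖gp r N i‖ ^ 2 ≤ K' * (2 * r) ^ 2 := by
        calc K * ‖gp r N i‖ ^ 2 ≤ K' * ‖gp r N i‖ ^ 2 :=
              mul_le_mul_of_nonneg_right (le_abs_self _) (sq_nonneg _)
          _ ≤ K' * (2 * r) ^ 2 := mul_le_mul_of_nonneg_left
              (pow_le_pow_left₀ (norm_nonneg _) (gp_norm hr0 hNpos i).le 2) hK'0
      calc _ ≤ K * ‖gp r N i‖ ^ 2 := h1
        _ ≤ K' * (2 * r) ^ 2 := h2
        _ = _ := by ring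
    have h3 : |inner ℝ (b 0) (w i - w j)| ≤ h := by
      rw [inner_sub_right]
      have h4 := hb1 i
      have h5 := hb1 j
      have h6 : 8 * K' * r ^ 2 ≤ h := by
        have := mul_le_mul_of_nonneg_right hr3 hr0.le
        calc 8 * K' * r ^ 2 = 8 * K' * r * r := by ring
          _ ≤ c / (4 * N) * r := this
          _ = h := by rw [hh]; ring
      have h7 := abs_sub (inner ℝ (b 0) (w i)) (inner ℝ (b 0) (w j))
      linarith
    rw [← sq_abs]
    exact pow_le_pow_left₀ (abs_nonneg _) h3 2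
  have hsum := b.sum_sq_inner_right (w i - w j)
  rw [Fin.sum_univ_three] at hsum
  have hsep := gp_sep hr0 hNpos hij
  have hlow := (hΦ _ (hball i) _ (hball j)).1
  have e1 : Φ (gp r N i) - Φ (gp r N j) = w i - w j := by rw [hw]; simp
  rw [e1] at hlow
  have h8 : 4 * h ≤ ‖w i - w j‖ := by
    calc 4 * h = c * (r / N) := by rw [hh]; field_simp
      _ ≤ c * ‖gp r N i - gp r N j‖ := mul_le_mul_of_nonneg_left hsep hc.le
      _ ≤ _ := hlow
  have h9 : (4 * h) ^ 2 ≤ ‖w i - w j‖ ^ 2 := pow_le_pow_left₀ (by positivity) h8 2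
  nlinarith [sq_pos_of_pos hh0]

/-- quadratic bound at the origin -/
lemma uu_bound {x : E3} (hx : ‖x‖ ≤ 1) : |uu x| ≤ 439 * ‖x‖ ^ 2 := by
  set n := ‖x‖ with hn
  have hn0 : 0 ≤ n := norm_nonneg _
  have h0 := coord_le_norm x 0
  have h1 := coord_le_norm x 1
  have h2 := coord_le_norm x 2
  rw [← hn] at h0 h1 h2
  have hr0 : 0 ≤ rr x := by unfold rr; positivity
  have hr1 : rr x ≤ n ^ 2 := by
    rw [hn, EuclideanSpace.real_norm_sq_eq, Fin.sum_univ_three]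
    unfold rr
    nlinarith [sq_nonneg (x 2)]
  have hz : x 2 ^ 2 ≤ n ^ 2 := by rw [← sq_abs]; exact pow_le_pow_left₀ (abs_nonneg _) h2 2
  have hz0 : 0 ≤ x 2 ^ 2 := sq_nonneg _
  have hn2 : n ^ 2 ≤ 1 := by nlinarith
  have hn20 : 0 ≤ n ^ 2 := sq_nonneg _
  set r := rr x with hr
  set z := x 2 ^ 2 with hzz
  have e4 : x 2 ^ 4 = z ^ 2 := by rw [hzz]; ring
  have hA : |cA r (x 2)| ≤ 217 * n ^ 2 := by
    have e : cA r (x 2) = 7 * (r ^ 2 + 2 * r - 8 * z - 12 * r * z + 8 * z ^ 2) := by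
      unfold cA; rw [e4]
    rw [e, abs_le]
    have m1 : r * z ≤ n ^ 2 := by nlinarith
    have m2 : r ^ 2 ≤ n ^ 2 := by nlinarith
    have m3 : z ^ 2 ≤ n ^ 2 := by nlinarith
    have m4 : 0 ≤ r * z := by positivity
    constructor <;> nlinarith [sq_nonneg r, sq_nonneg z]
  have hB : |cB r (x 2)| ≤ 222 * n := by
    have e : cB r (x 2) = x 2 * (2 * (8 + 30 * r - 40 * z + 5 * r ^ 2 - 20 * r * z + 8 * z ^ 2)) := by
      unfold cB; rw [e4]; ring
    have hq : |2 * (8 + 30 * r - 40 * z + 5 * r ^ 2 - 20 * r * z + 8 * z ^ 2)| ≤ 222 := by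
      rw [abs_le]
      have m1 : r * z ≤ 1 := by nlinarith
      have m2 : r ^ 2 ≤ 1 := by nlinarith
      have m3 : z ^ 2 ≤ 1 := by nlinarith
      have m4 : 0 ≤ r * z := by positivity
      constructor <;> nlinarith [sq_nonneg r, sq_nonneg z]
    rw [e, abs_mul]
    calc |x 2| * _ ≤ n * 222 := mul_le_mul h2 hq (abs_nonneg _) hn0
      _ = _ := by ring
  unfold uu
  rw [← hr]
  calc |x 0 * cA r (x 2) + x 1 * cB r (x 2)| ≤ |x 0 * cA r (x 2)| + |x 1 * cB r (x 2)| :=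
        abs_add_le _ _
    _ = |x 0| * |cA r (x 2)| + |x 1| * |cB r (x 2)| := by rw [abs_mul, abs_mul]
    _ ≤ n * (217 * n ^ 2) + n * (222 * n) :=
        add_le_add (mul_le_mul h0 hA (abs_nonneg _) hn0) (mul_le_mul h1 hB (abs_nonneg _) hn0)
    _ ≤ 439 * n ^ 2 := by nlinarith

end Pool.Agent.Work.MP_c10eee_an
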