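import Mathlib

namespace Pool.Agent.Work.MP_c10eee_an

open Set

/-- coefficient polynomials of the harmonic polynomial; `r = x ^ 2 + y ^ 2` -/
def cA (r z : ℝ) : ℝ := 7 * (r ^ 2 + 2 * r - 8 * z ^ 2 - 12 * r * z ^ 2 + 8 * z ^ 4)
def cB (r z : ℝ) : ℝ :=
  2 * z * (8 + 30 * r - 40 * z ^ 2 + 5 * r ^ 2 - 20 * r * z ^ 2 + 8 * z ^ 4)

/-- `cA ^ 2 + cB ^ 2` in terms of `s = z ^ 2` and `r` -/
def Gam (s r : ℝ) : ℝ := 49 * (r ^ 2 + 2 * r - 8 * s - 12 * r * s + 8 * s ^ 2) ^ 2 +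
  4 * s * (8 + 30 * r - 40 * s + 5 * r ^ 2 - 20 * r * s + 8 * s ^ 2) ^ 2

def GamS (s r : ℝ) : ℝ :=
  98 * (r ^ 2 + 2 * r - 8 * s - 12 * r * s + 8 * s ^ 2) * (-8 - 12 * r + 16 * s) +
  4 * (8 + 30 * r - 40 * s + 5 * r ^ 2 - 20 * r * s + 8 * s ^ 2) ^ 2 +
  8 * s * (8 + 30 * r - 40 * s + 5 * r ^ 2 - 20 * r * s + 8 * s ^ 2) * (-40 - 20 * r + 16 * s)

def GamR (s r : ℝ) : ℝ :=
  98 * (r ^ 2 + 2 * r - 8 * s - 12 * r * s + 8 * s ^ 2) * (2 * r + 2 - 12 * s) +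
  8 * s * (8 + 30 * r - 40 * s + 5 * r ^ 2 - 20 * r * s + 8 * s ^ 2) * (30 + 10 * r - 20 * s)

lemma Gam_eq (r z : ℝ) : cA r z ^ 2 + cB r z ^ 2 = Gam (z ^ 2) r := by
  unfold cA cB Gam; ring

lemma Gam_nonneg {s r : ℝ} (hs : 0 ≤ s) : 0 ≤ Gam s r := by
  unfold Gam; positivity

lemma cert (s r t q : ℝ) (ht : t = 1 - s) (hq : q = 1 - r) :
    Gam (s * (1 - r)) r + r * GamR (s * (1 - r)) r - s * r * GamS (s * (1 - r)) r - 100 * r ^ 2 =
    488 * t ^ 5 * r ^ 2 * q ^ 6 +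
    3712 * t ^ 5 * r ^ 3 * q ^ 5 +
    11485 * t ^ 5 * r ^ 4 * q ^ 4 +
    18580 * t ^ 5 * r ^ 5 * q ^ 3 +
    16630 * t ^ 5 * r ^ 6 * q ^ 2 +
    7828 * t ^ 5 * r ^ 7 * q +
    1517 * t ^ 5 * r ^ 8 +
    256 * s * t ^ 4 * q ^ 8 +
    2240 * s * t ^ 4 * r * q ^ 7 +
    12248 * s * t ^ 4 * r ^ 2 * q ^ 6 +
    41664 * s * t ^ 4 * r ^ 3 * q ^ 5 +
    86685 * s * t ^ 4 * r ^ 4 * q ^ 4 +
    110396 * s * t ^ 4 * r ^ 5 * q ^ 3 +
    83870 * s * t ^ 4 * r ^ 6 * q ^ 2 +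
    34828 * s * t ^ 4 * r ^ 7 * q +
    6069 * s * t ^ 4 * r ^ 8 +
    1600 * s ^ 2 * t ^ 3 * q ^ 8 +
    11456 * s ^ 2 * t ^ 3 * r * q ^ 7 +
    50928 * s ^ 2 * t ^ 3 * r ^ 2 * q ^ 6 +
    135936 * s ^ 2 * t ^ 3 * r ^ 3 * q ^ 5 +
    223890 * s ^ 2 * t ^ 3 * r ^ 4 * q ^ 4 +
    236200 * s ^ 2 * t ^ 3 * r ^ 5 * q ^ 3 +
    156476 * s ^ 2 * t ^ 3 * r ^ 6 * q ^ 2 +
    58408 * s ^ 2 * t ^ 3 * r ^ 7 * q +
    9106 * s ^ 2 * t ^ 3 * r ^ 8 +
    3904 * s ^ 3 * t ^ 2 * q ^ 8 +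
    20032 * s ^ 3 * t ^ 2 * r * q ^ 7 +
    81296 * s ^ 3 * t ^ 2 * r ^ 2 * q ^ 6 +
    193664 * s ^ 3 * t ^ 2 * r ^ 3 * q ^ 5 +
    261290 * s ^ 3 * t ^ 2 * r ^ 4 * q ^ 4 +
    222424 * s ^ 3 * t ^ 2 * r ^ 5 * q ^ 3 +
    128092 * s ^ 3 * t ^ 2 * r ^ 6 * q ^ 2 +
    44536 * s ^ 3 * t ^ 2 * r ^ 7 * q +
    6074 * s ^ 3 * t ^ 2 * r ^ 8 +
    4608 * s ^ 4 * t * q ^ 8 +
    12096 * s ^ 4 * t * r * q ^ 7 +
    48040 * s ^ 4 * t * r ^ 2 * q ^ 6 +
    123776 * s ^ 4 * t * r ^ 3 * q ^ 5 +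
    144385 * s ^ 4 * t * r ^ 4 * q ^ 4 +
    87748 * s ^ 4 * t * r ^ 5 * q ^ 3 +
    39086 * s ^ 4 * t * r ^ 6 * q ^ 2 +
    14020 * s ^ 4 * t * r ^ 7 * q +
    1521 * s ^ 4 * t * r ^ 8 +
    2304 * s ^ 5 * q ^ 8 +
    768 * s ^ 5 * r * q ^ 7 +
    2840 * s ^ 5 * r ^ 2 * q ^ 6 +
    24512 * s ^ 5 * r ^ 3 * q ^ 5 +
    30505 * s ^ 5 * r ^ 4 * q ^ 4 +
    9708 * s ^ 5 * r ^ 5 * q ^ 3 +
    230 * s ^ 5 * r ^ 6 * q ^ 2 +
    892 * s ^ 5 * r ^ 7 * q +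
    1 * s ^ 5 * r ^ 8 := by
  subst ht hq
  unfold Gam GamR GamS
  ring

lemma F_ge {s r : ℝ} (hs0 : 0 ≤ s) (hs1 : s ≤ 1) (hr0 : 0 ≤ r) (hr1 : r ≤ 1) :
    100 * r ^ 2 ≤
      Gam (s * (1 - r)) r + r * GamR (s * (1 - r)) r - s * r * GamS (s * (1 - r)) r := by
  have h := cert s r (1 - s) (1 - r) rfl rfl
  have ht : 0 ≤ 1 - s := by linarith
  have hq : 0 ≤ 1 - r := by linarith
  generalize 1 - s = t at *
  generalize 1 - r = q at *
  have : 0 ≤ Gam (s * q) r + r * GamR (s * q) r - s * r * GamS (s * q) r - 100 * r ^ 2 := by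
    rw [h]; positivity
  linarith

lemma key_pos {s r a : ℝ} (hs : 0 ≤ s) (hsr : s + r ≤ 1) (ha : 0 < a) (har : a ≤ r)
    (hr1 : r < 1) :
    0 < (1 - a) * Gam s r + a * ((1 - r) * GamR s r - s * GamS s r) := by
  have hr0 : 0 < r := lt_of_lt_of_le ha har
  have h1r : 0 < 1 - r := by linarith
  have hsg : s / (1 - r) * (1 - r) = s := by field_simp
  have hF := F_ge (s := s / (1 - r)) (r := r) (by positivity)
    ((div_le_one h1r).2 (by linarith)) hr0.le hr1.le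
  rw [hsg] at hF
  have e : (1 - r) * (Gam s r + r * GamR s r - s / (1 - r) * r * GamS s r) =
    (1 - r) * Gam s r + r * ((1 - r) * GamR s r - s * GamS s r) := by
    field_simp
    ring
  have hL : 0 < (1 - r) * Gam s r + r * ((1 - r) * GamR s r - s * GamS s r) := by
    rw [← e]
    apply mul_pos h1r
    have : 0 < 100 * r ^ 2 := by positivity
    linarith
  have hG := Gam_nonneg (r := r) hs
  have e2 : r * ((1 - a) * Gam s r + a * ((1 - r) * GamR s r - s * GamS s r)) =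
    (r - a) * Gam s r + a * ((1 - r) * Gam s r + r * ((1 - r) * GamR s r - s * GamS s r)) := by
    ring
  have h2 : 0 < r * ((1 - a) * Gam s r + a * ((1 - r) * GamR s r - s * GamS s r)) := by
    rw [e2]
    have := mul_nonneg (by linarith : 0 ≤ r - a) hG
    have := mul_pos ha hL
    linarith
  exact (mul_pos_iff_of_pos_left hr0).1 h2

lemma hasDerivAt_Gam {s r : ℝ → ℝ} {s' r' t : ℝ} (hs : HasDerivAt s s' t)
    (hr : HasDerivAt r r' t) :
    HasDerivAt (fun t => Gam (s t) (r t)) (GamS (s t) (r t) * s' + GamR (s t) (r t) * r') t := by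
  have hX : HasDerivAt (fun t => r t ^ 2 + 2 * r t - 8 * s t - 12 * r t * s t + 8 * s t ^ 2)
      (2 * r t * r' + 2 * r' - 8 * s' - (12 * r' * s t + 12 * r t * s') + 8 * (2 * s t * s')) t := by
    have h1 := hr.pow 2
    have h2 := hs.pow 2
    have h3 := ((((h1.add (hr.const_mul 2)).sub (hs.const_mul 8)).sub
      ((hr.const_mul 12).mul hs)).add (h2.const_mul 8))
    exact h3.congr_deriv (by push_cast; ring)
  have hY : HasDerivAt (fun t => 8 + 30 * r t - 40 * s t + 5 * r t ^ 2 - 20 * r t * s t +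
      8 * s t ^ 2) (30 * r' - 40 * s' + 5 * (2 * r t * r') - (20 * r' * s t + 20 * r t * s') +
      8 * (2 * s t * s')) t := by
    have h1 := hr.pow 2
    have h2 := hs.pow 2
    have h3 := ((((((hr.const_mul 30).const_add 8).sub (hs.const_mul 40)).add
      (h1.const_mul 5)).sub ((hr.const_mul 20).mul hs)).add (h2.const_mul 8))
    exact h3.congr_deriv (by push_cast; ring)
  have h4 := ((hX.pow 2).const_mul 49).add (((hs.const_mul 4)).mul (hY.pow 2))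
  exact h4.congr_deriv (by simp only [GamS, GamR, Pi.pow_apply]; push_cast; ring)

/-- the squared height along the curve with label `(P, Q) = (p ^ 2, q ^ 2)` -/
def Hf (P Q a : ℝ) : ℝ := a * Gam ((1 - a) * Q) (a + (1 - a) * P)

lemma Hf_strictMono {P Q : ℝ} (hP : 0 ≤ P) (hQ : 0 ≤ Q) (hPQ : P + Q ≤ 1) :
    StrictMonoOn (Hf P Q) (Icc 0 1) := by
  have hd : ∀ a : ℝ, HasDerivAt (Hf P Q) (1 * Gam ((1 - a) * Q) (a + (1 - a) * P) +
      a * (GamS ((1 - a) * Q) (a + (1 - a) * P) * (-Q) +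
        GamR ((1 - a) * Q) (a + (1 - a) * P) * (1 - P))) a := by
    intro a
    have h1 : HasDerivAt (fun a : ℝ => (1 - a) * Q) (-Q) a := by
      have := ((hasDerivAt_id a).const_sub 1).mul_const Q
      simpa using this
    have h2 : HasDerivAt (fun a : ℝ => a + (1 - a) * P) (1 - P) a := by
      have := (hasDerivAt_id a).add (((hasDerivAt_id a).const_sub 1).mul_const P)
      exact this.congr_deriv (by ring)
    exact (hasDerivAt_id a).mul (hasDerivAt_Gam h1 h2)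
  refine strictMonoOn_of_deriv_pos (convex_Icc 0 1)
    (fun a _ => (hd a).continuousAt.continuousWithinAt) fun a ha => ?_
  rw [interior_Icc] at ha
  rw [(hd a).deriv]
  have ha0 : 0 < a := ha.1
  have ha1 : 0 < 1 - a := by linarith [ha.2]
  set s := (1 - a) * Q with hs
  set r := a + (1 - a) * P with hr
  have hs0 : 0 ≤ s := by positivity
  have hsr : s + r ≤ 1 := by rw [hs, hr]; nlinarith
  have har : a ≤ r := by rw [hr]; nlinarith [mul_nonneg ha1.le hP]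
  rcases lt_or_ge P 1 with hP1 | hP1
  · have hr1 : r < 1 := by rw [hr]; nlinarith
    have h1 := key_pos hs0 hsr ha0 har hr1
    have e : (1 - a) * (1 * Gam s r + a * (GamS s r * (-Q) + GamR s r * (1 - P))) =
      (1 - a) * Gam s r + a * ((1 - r) * GamR s r - s * GamS s r) := by
      have e1 : 1 - r = (1 - a) * (1 - P) := by rw [hr]; ring
      rw [e1, hs]; ring
    rw [← e] at h1
    exact (mul_pos_iff_of_pos_left ha1).1 h1
  · have hP' : P = 1 := by linarith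
    have hQ' : Q = 0 := by linarith
    have hs' : s = 0 := by rw [hs, hQ']; ring
    have hr' : r = 1 := by rw [hr, hP']; ring
    rw [hs', hr', hP', hQ']
    unfold Gam
    norm_num

lemma Gam_pos {s r : ℝ} (hs : 0 ≤ s) (hr : 0 ≤ r) (hsr : s + r ≤ 1) (h : 0 < s ∨ 0 < r) :
    0 < Gam s r := by
  rcases hr.eq_or_lt with hr0 | hr0
  · subst hr0
    have hs' : 0 < s := by
      rcases h with h | h
      · exact h
      · exact absurd h (lt_irrefl _)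
    rcases lt_or_ge s 1 with h1 | h1
    · have : Gam s 0 = 49 * (8 * s * (s - 1)) ^ 2 + 4 * s * (8 - 40 * s + 8 * s ^ 2) ^ 2 := by
        unfold Gam; ring
      rw [this]
      have h2 : 8 * s * (s - 1) ≠ 0 := by
        apply mul_ne_zero (by positivity)
        linarith
      positivity
    · have : s = 1 := by linarith
      subst this
      unfold Gam; norm_num
  · rcases lt_or_ge r 1 with h1 | h1
    · have h1r : 0 < 1 - r := by linarith
      have hm := Hf_strictMono (P := 0) (Q := s / (1 - r)) le_rfl (by positivity)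
        (by rw [zero_add]; exact (div_le_one h1r).2 (by linarith))
      have := hm (⟨le_rfl, zero_le_one⟩ : (0 : ℝ) ∈ Icc 0 1) ⟨hr0.le, h1.le⟩ hr0
      unfold Hf at this
      have e1 : (1 - r) * (s / (1 - r)) = s := by field_simp
      rw [zero_mul, e1, mul_zero, add_zero] at this
      exact (mul_pos_iff_of_pos_left hr0).1 this
    · have h2 : r = 1 := by linarith
      have h3 : s = 0 := by linarith
      subst h2 h3
      unfold Gam; norm_num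

end Pool.Agent.Work.MP_c10eee_an
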