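import Pool.Agent.Work.MP_c10eee_an.Poly

namespace Pool.Agent.Work.MP_c10eee_an

open Set Metric Filter Topology

abbrev E3 := EuclideanSpace ℝ (Fin 3)

lemma mem_ball_iff (x : E3) :
    x ∈ closedBall (0 : E3) 1 ↔ x 0 ^ 2 + x 1 ^ 2 + x 2 ^ 2 ≤ 1 := by
  rw [mem_closedBall_zero_iff, ← sq_le_one_iff₀ (norm_nonneg _), EuclideanSpace.real_norm_sq_eq,
    Fin.sum_univ_three]

/-- point with axial coordinate `t` and label `(p, q)` -/
noncomputable def pt (t p q : ℝ) : E3 := !₂[t, √(1 - t ^ 2) * p, √(1 - t ^ 2) * q]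

@[simp] lemma pt_0 (t p q : ℝ) : pt t p q 0 = t := rfl
@[simp] lemma pt_1 (t p q : ℝ) : pt t p q 1 = √(1 - t ^ 2) * p := rfl
@[simp] lemma pt_2 (t p q : ℝ) : pt t p q 2 = √(1 - t ^ 2) * q := rfl

lemma ext3 {x y : E3} (h0 : x 0 = y 0) (h1 : x 1 = y 1) (h2 : x 2 = y 2) : x = y := by
  ext i
  fin_cases i
  · exact h0
  · exact h1
  · exact h2

lemma sq_le_of_mem {t : ℝ} (ht : t ∈ Icc (-1 : ℝ) 1) : 0 ≤ 1 - t ^ 2 := by
  nlinarith [ht.1, ht.2]

lemma pt_mem {t p q : ℝ} (ht : t ∈ Icc (-1 : ℝ) 1) (hpq : p ^ 2 + q ^ 2 ≤ 1) :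
    pt t p q ∈ closedBall (0 : E3) 1 := by
  rw [mem_ball_iff]
  have h := sq_le_of_mem ht
  simp only [pt_0, pt_1, pt_2, mul_pow, Real.sq_sqrt h]
  nlinarith

lemma exists_pt {x : E3} (hx : x ∈ closedBall (0 : E3) 1) :
    ∃ t p q : ℝ, t ∈ Icc (-1 : ℝ) 1 ∧ p ^ 2 + q ^ 2 ≤ 1 ∧ x = pt t p q := by
  rw [mem_ball_iff] at hx
  have ht : x 0 ^ 2 ≤ 1 := by nlinarith [sq_nonneg (x 1), sq_nonneg (x 2)]
  have ht' : x 0 ∈ Icc (-1 : ℝ) 1 := abs_le.1 ((sq_le_one_iff_abs_le_one _).1 ht)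
  rcases ht.lt_or_eq with h | h
  · have hpos : 0 < 1 - x 0 ^ 2 := by linarith
    have hs : √(1 - x 0 ^ 2) ≠ 0 := (Real.sqrt_pos.2 hpos).ne'
    refine ⟨x 0, x 1 / √(1 - x 0 ^ 2), x 2 / √(1 - x 0 ^ 2), ht', ?_, ?_⟩
    · rw [div_pow, div_pow, Real.sq_sqrt hpos.le, ← add_div, div_le_one hpos]
      linarith
    · refine ext3 rfl ?_ ?_
      · rw [pt_1]; field_simp
      · rw [pt_2]; field_simp
  · have h1 : x 1 = 0 := by
      have : x 1 ^ 2 ≤ 0 := by nlinarith [sq_nonneg (x 2)]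
      exact pow_eq_zero_iff (two_ne_zero) |>.1 (le_antisymm this (sq_nonneg _))
    have h2 : x 2 = 0 := by
      have : x 2 ^ 2 ≤ 0 := by nlinarith [sq_nonneg (x 1)]
      exact pow_eq_zero_iff (two_ne_zero) |>.1 (le_antisymm this (sq_nonneg _))
    refine ⟨x 0, 0, 0, ht', by norm_num, ext3 rfl ?_ ?_⟩
    · simp [h1]
    · simp [h2]

lemma pt_one (p q : ℝ) : pt 1 p q = !₂[1, 0, 0] := by
  refine ext3 rfl ?_ ?_ <;> simp

lemma pt_neg_one (p q : ℝ) : pt (-1) p q = !₂[-1, 0, 0] := by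
  refine ext3 rfl ?_ ?_ <;> simp

lemma continuousOn_mk {X : Type*} [TopologicalSpace X] {s : Set X} {a b c : X → ℝ}
    (ha : ContinuousOn a s)
    (hb : ContinuousOn b s) (hc : ContinuousOn c s) :
    ContinuousOn (fun x => (!₂[a x, b x, c x] : E3)) s := by
  refine (PiLp.continuous_toLp 2 (fun _ : Fin 3 => ℝ)).comp_continuousOn ?_
  rw [continuousOn_pi]
  intro i
  fin_cases i
  · exact ha
  · exact hb
  · exact hc

lemma continuous_coord (i : Fin 3) : Continuous (fun x : E3 => x i) := by fun_prop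

lemma continuousOn_pt (p q : ℝ) : ContinuousOn (fun t => pt t p q) (Icc (-1) 1) := by
  refine continuousOn_mk continuousOn_id ?_ ?_
  · exact (Continuous.mul (Real.continuous_sqrt.comp (by fun_prop)) continuous_const).continuousOn
  · exact (Continuous.mul (Real.continuous_sqrt.comp (by fun_prop)) continuous_const).continuousOn

section straighten

variable (v : E3 → ℝ)

/-- the straightening map -/
noncomputable def str (x : E3) : E3 :=
  !₂[v x, √(1 - v x ^ 2) / √(1 - x 0 ^ 2) * x 1, √(1 - v x ^ 2) / √(1 - x 0 ^ 2) * x 2]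

variable {v}

lemma str_pt (h1 : v !₂[1, 0, 0] = 1) (h2 : v !₂[-1, 0, 0] = -1) {t p q : ℝ}
    (ht : t ∈ Icc (-1 : ℝ) 1) : str v (pt t p q) = pt (v (pt t p q)) p q := by
  rcases eq_or_ne (1 - t ^ 2) 0 with h | h
  · have h' : t = 1 ∨ t = -1 := by
      have : (t - 1) * (t + 1) = 0 := by linarith
      rcases mul_eq_zero.1 this with h | h
      · left; linarith
      · right; linarith
    rcases h' with rfl | rfl
    · rw [pt_one, h1, pt_one]
      refine ext3 ?_ ?_ ?_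
      · simp [str, h1]
      · simp [str]
      · simp [str]
    · rw [pt_neg_one, h2, pt_neg_one]
      refine ext3 ?_ ?_ ?_
      · simp [str, h2]
      · simp [str]
      · simp [str]
  · have hs : √(1 - t ^ 2) ≠ 0 :=
      (Real.sqrt_pos.2 (lt_of_le_of_ne (sq_le_of_mem ht) h.symm)).ne'
    refine ext3 rfl ?_ ?_
    · show √(1 - v (pt t p q) ^ 2) / √(1 - t ^ 2) * (√(1 - t ^ 2) * p) = _
      rw [pt_1]; field_simp
    · show √(1 - v (pt t p q) ^ 2) / √(1 - t ^ 2) * (√(1 - t ^ 2) * q) = _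
      rw [pt_2]; field_simp

lemma v_mem (hm : ∀ p q : ℝ, p ^ 2 + q ^ 2 ≤ 1 → StrictMonoOn (fun t => v (pt t p q)) (Icc (-1) 1))
    (h1 : v !₂[1, 0, 0] = 1) (h2 : v !₂[-1, 0, 0] = -1) {t p q : ℝ}
    (ht : t ∈ Icc (-1 : ℝ) 1) (hpq : p ^ 2 + q ^ 2 ≤ 1) : v (pt t p q) ∈ Icc (-1 : ℝ) 1 := by
  have hmm := (hm p q hpq).monotoneOn
  constructor
  · have := hmm (⟨le_rfl, by norm_num⟩ : (-1 : ℝ) ∈ Icc (-1 : ℝ) 1) ht ht.1
    simp only [pt_neg_one, h2] at this
    exact this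
  · have := hmm ht (⟨by norm_num, le_rfl⟩ : (1 : ℝ) ∈ Icc (-1 : ℝ) 1) ht.2
    simp only [pt_one, h1] at this
    exact this

lemma continuousOn_aux (hc : ContinuousOn v (closedBall 0 1))
    (hpole : ∀ x ∈ closedBall (0 : E3) 1, 1 - x 0 ^ 2 = 0 → v x ^ 2 = 1) (i : Fin 3)
    (hi : ∀ x ∈ closedBall (0 : E3) 1, x i ^ 2 ≤ 1 - x 0 ^ 2) :
    ContinuousOn (fun x : E3 => √(1 - v x ^ 2) / √(1 - x 0 ^ 2) * x i) (closedBall 0 1) := by
  intro x hx
  have hcv : ContinuousWithinAt (fun x => √(1 - v x ^ 2)) (closedBall 0 1) x :=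
    Real.continuous_sqrt.continuousAt.comp_continuousWithinAt
      (continuousWithinAt_const.sub ((hc x hx).pow 2))
  rcases eq_or_ne (1 - x 0 ^ 2) 0 with h | h
  · have hxi : x i = 0 := by
      have := hi x hx
      rw [h] at this
      exact pow_eq_zero_iff (two_ne_zero) |>.1 (le_antisymm this (sq_nonneg _))
    have hv := hpole x hx h
    have h0 : √(1 - v x ^ 2) = 0 := by rw [hv, sub_self, Real.sqrt_zero]
    have hval : √(1 - v x ^ 2) / √(1 - x 0 ^ 2) * x i = 0 := by rw [hxi, mul_zero]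
    show Tendsto _ _ (𝓝 (√(1 - v x ^ 2) / √(1 - x 0 ^ 2) * x i))
    rw [hval]
    have hcv' : Tendsto (fun x => √(1 - v x ^ 2)) (𝓝[closedBall 0 1] x) (𝓝 0) := by
      have := hcv.tendsto
      rwa [h0] at this
    refine squeeze_zero_norm' ?_ hcv'
    filter_upwards [self_mem_nhdsWithin] with y hy
    rw [Real.norm_eq_abs, abs_mul, abs_div, abs_of_nonneg (Real.sqrt_nonneg _),
      abs_of_nonneg (Real.sqrt_nonneg _)]
    have hyi : |y i| ≤ √(1 - y 0 ^ 2) := Real.abs_le_sqrt (hi y hy)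
    rcases eq_or_ne (√(1 - y 0 ^ 2)) 0 with h' | h'
    · rw [h', div_zero, zero_mul]
      exact Real.sqrt_nonneg _
    · have hp : 0 < √(1 - y 0 ^ 2) := lt_of_le_of_ne (Real.sqrt_nonneg _) h'.symm
      rw [div_mul_eq_mul_div, div_le_iff₀ hp]
      exact mul_le_mul_of_nonneg_left hyi (Real.sqrt_nonneg _)
  · have hpos : 0 < 1 - x 0 ^ 2 := by
      have := hi x hx
      have h2 : 0 ≤ 1 - x 0 ^ 2 := le_trans (sq_nonneg _) this
      exact lt_of_le_of_ne h2 h.symm
    have hd : ContinuousWithinAt (fun x : E3 => √(1 - x 0 ^ 2)) (closedBall 0 1) x := by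
      apply Continuous.continuousWithinAt
      exact Real.continuous_sqrt.comp (by fun_prop)
    exact (hcv.div hd (Real.sqrt_pos.2 hpos).ne').mul (continuous_coord i).continuousWithinAt

theorem exists_homeo (hc : ContinuousOn v (closedBall 0 1))
    (hm : ∀ p q : ℝ, p ^ 2 + q ^ 2 ≤ 1 → StrictMonoOn (fun t => v (pt t p q)) (Icc (-1) 1))
    (h1 : v !₂[1, 0, 0] = 1) (h2 : v !₂[-1, 0, 0] = -1) :
    ∃ Φ : closedBall (0 : E3) 1 ≃ₜ closedBall (0 : E3) 1, ∀ x, (Φ x : E3) 0 = v x := by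
  have hmaps : ∀ x ∈ closedBall (0 : E3) 1, str v x ∈ closedBall (0 : E3) 1 := by
    intro x hx
    obtain ⟨t, p, q, ht, hpq, rfl⟩ := exists_pt hx
    rw [str_pt h1 h2 ht]
    exact pt_mem (v_mem hm h1 h2 ht hpq) hpq
  have hpole : ∀ x ∈ closedBall (0 : E3) 1, 1 - x 0 ^ 2 = 0 → v x ^ 2 = 1 := by
    intro x hx h
    obtain ⟨t, p, q, ht, hpq, rfl⟩ := exists_pt hx
    rw [pt_0] at h
    have : (t - 1) * (t + 1) = 0 := by linarith
    rcases mul_eq_zero.1 this with h | h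
    · have : t = 1 := by linarith
      rw [this, pt_one, h1]; norm_num
    · have : t = -1 := by linarith
      rw [this, pt_neg_one, h2]; norm_num
  have hcont : ContinuousOn (str v) (closedBall 0 1) := by
    refine continuousOn_mk hc ?_ ?_
    · refine continuousOn_aux hc hpole 1 fun x hx => ?_
      rw [mem_ball_iff] at hx
      nlinarith [sq_nonneg (x 2)]
    · refine continuousOn_aux hc hpole 2 fun x hx => ?_
      rw [mem_ball_iff] at hx
      nlinarith [sq_nonneg (x 1)]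
  let φ : closedBall (0 : E3) 1 → closedBall (0 : E3) 1 := fun x => ⟨str v x, hmaps x x.2⟩
  have hφ : Continuous φ :=
    Continuous.subtype_mk (continuousOn_iff_continuous_domRestrict.1 hcont) _
  have hinj : Function.Injective φ := by
    rintro ⟨x, hx⟩ ⟨y, hy⟩ hxy
    have hxy' : str v x = str v y := congrArg Subtype.val hxy
    obtain ⟨t, p, q, ht, hpq, rfl⟩ := exists_pt hx
    obtain ⟨t', p', q', ht', hpq', rfl⟩ := exists_pt hy
    rw [str_pt h1 h2 ht, str_pt h1 h2 ht'] at hxy'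
    have hw : v (pt t p q) = v (pt t' p' q') := by
      have := congrArg (fun z : E3 => z 0) hxy'
      simpa using this
    have hwm := v_mem hm h1 h2 ht hpq
    rcases eq_or_ne (1 - v (pt t p q) ^ 2) 0 with h | h
    · have : (v (pt t p q) - 1) * (v (pt t p q) + 1) = 0 := by linarith
      rcases mul_eq_zero.1 this with h | h
      · have e1 : v (pt t p q) = v (pt 1 p q) := by rw [pt_one, h1]; linarith
        have e2 : v (pt t' p' q') = v (pt 1 p' q') := by rw [pt_one, h1, ← hw]; linarith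
        have e3 := (hm p q hpq).injOn ht (⟨by norm_num, le_rfl⟩ : (1 : ℝ) ∈ Icc (-1 : ℝ) 1) e1
        have e4 := (hm p' q' hpq').injOn ht' (⟨by norm_num, le_rfl⟩ : (1 : ℝ) ∈ Icc (-1 : ℝ) 1) e2
        apply Subtype.ext
        show pt t p q = pt t' p' q'
        rw [e3, e4, pt_one, pt_one]
      · have e1 : v (pt t p q) = v (pt (-1) p q) := by rw [pt_neg_one, h2]; linarith
        have e2 : v (pt t' p' q') = v (pt (-1) p' q') := by rw [pt_neg_one, h2, ← hw]; linarith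
        have e3 := (hm p q hpq).injOn ht (⟨le_rfl, by norm_num⟩ : (-1 : ℝ) ∈ Icc (-1 : ℝ) 1) e1
        have e4 := (hm p' q' hpq').injOn ht' (⟨le_rfl, by norm_num⟩ : (-1 : ℝ) ∈ Icc (-1 : ℝ) 1) e2
        apply Subtype.ext
        show pt t p q = pt t' p' q'
        rw [e3, e4, pt_neg_one, pt_neg_one]
    · have hpos : 0 < 1 - v (pt t p q) ^ 2 := lt_of_le_of_ne (sq_le_of_mem hwm) h.symm
      have hs : √(1 - v (pt t p q) ^ 2) ≠ 0 := (Real.sqrt_pos.2 hpos).ne'
      have ep : p = p' := by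
        have := congrArg (fun z : E3 => z 1) hxy'
        simp only [pt_1, ← hw] at this
        exact mul_left_cancel₀ hs this
      have eq : q = q' := by
        have := congrArg (fun z : E3 => z 2) hxy'
        simp only [pt_2, ← hw] at this
        exact mul_left_cancel₀ hs this
      subst ep eq
      have := (hm p q hpq).injOn ht ht' hw
      rw [Subtype.mk.injEq, this]
  have hsurj : Function.Surjective φ := by
    rintro ⟨y, hy⟩
    obtain ⟨w, p, q, hw, hpq, rfl⟩ := exists_pt hy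
    have hcv : ContinuousOn (fun t => v (pt t p q)) (Icc (-1) 1) :=
      hc.comp (continuousOn_pt p q) fun t ht => pt_mem ht hpq
    have hivt := intermediate_value_Icc (by norm_num : (-1 : ℝ) ≤ 1) hcv
    simp only [pt_one, pt_neg_one, h1, h2] at hivt
    obtain ⟨t, ht, htw'⟩ := hivt hw
    have htw : v (pt t p q) = w := htw'
    refine ⟨⟨pt t p q, pt_mem ht hpq⟩, ?_⟩
    apply Subtype.ext
    show str v (pt t p q) = pt w p q
    rw [str_pt h1 h2 ht, htw]
  have : CompactSpace (closedBall (0 : E3) 1) := isCompact_iff_compactSpace.1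
    (isCompact_closedBall _ _)
  refine ⟨Continuous.homeoOfEquivCompactToT2 (f := Equiv.ofBijective φ ⟨hinj, hsurj⟩) hφ, ?_⟩
  intro x
  rfl

end straighten

/-- `r = x ^ 2 + y ^ 2` -/
def rr (x : E3) : ℝ := x 0 ^ 2 + x 1 ^ 2

/-- modulus of the coefficient -/
noncomputable def NN (x : E3) : ℝ := √(cA (rr x) (x 2) ^ 2 + cB (rr x) (x 2) ^ 2)

lemma NN_pos {x : E3} (hx : x ∈ closedBall (0 : E3) 1) (h0 : x ≠ 0) : 0 < NN x := by
  rw [mem_ball_iff] at hx
  unfold NN
  rw [Gam_eq]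
  apply Real.sqrt_pos.2
  have hr : 0 ≤ rr x := by unfold rr; positivity
  refine Gam_pos (sq_nonneg _) hr (by unfold rr; linarith) ?_
  by_contra hc
  push Not at hc
  obtain ⟨h1, h2⟩ := hc
  apply h0
  have e2 : x 2 ^ 2 = 0 := le_antisymm h1 (sq_nonneg _)
  have e0 : x 0 ^ 2 = 0 := by unfold rr at h2; nlinarith [sq_nonneg (x 0), sq_nonneg (x 1)]
  have e1 : x 1 ^ 2 = 0 := by unfold rr at h2; nlinarith [sq_nonneg (x 0), sq_nonneg (x 1)]
  refine ext3 ?_ ?_ ?_
  · simpa using e0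
  · simpa using e1
  · simpa using e2

/-- rotation of horizontal circles -/
noncomputable def tws (σ : ℝ) (x : E3) : E3 :=
  !₂[(x 0 * cA (rr x) (x 2) + σ * (x 1 * cB (rr x) (x 2))) / NN x,
    (x 1 * cA (rr x) (x 2) - σ * (x 0 * cB (rr x) (x 2))) / NN x, x 2]

lemma NN_sq (x : E3) : NN x ^ 2 = cA (rr x) (x 2) ^ 2 + cB (rr x) (x 2) ^ 2 :=
  Real.sq_sqrt (by positivity)

lemma tws_zero (σ : ℝ) : tws σ 0 = 0 := by
  refine ext3 ?_ ?_ ?_ <;> simp [tws]

lemma tws_2 (σ : ℝ) (x : E3) : tws σ x 2 = x 2 := rfl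

lemma rr_tws {σ : ℝ} (hσ : σ ^ 2 = 1) {x : E3} (hx : x ∈ closedBall (0 : E3) 1) :
    rr (tws σ x) = rr x := by
  rcases eq_or_ne x 0 with h | h
  · rw [h, tws_zero]
  · have hN := NN_pos hx h
    have hN2 := NN_sq x
    show ((x 0 * cA (rr x) (x 2) + σ * (x 1 * cB (rr x) (x 2))) / NN x) ^ 2 +
      ((x 1 * cA (rr x) (x 2) - σ * (x 0 * cB (rr x) (x 2))) / NN x) ^ 2 = rr x
    rw [div_pow, div_pow, ← add_div, div_eq_iff (by positivity), hN2]
    have : (x 0 * cA (rr x) (x 2) + σ * (x 1 * cB (rr x) (x 2))) ^ 2 +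
      (x 1 * cA (rr x) (x 2) - σ * (x 0 * cB (rr x) (x 2))) ^ 2 =
      (x 0 ^ 2 + x 1 ^ 2) * (cA (rr x) (x 2) ^ 2 + σ ^ 2 * cB (rr x) (x 2) ^ 2) := by ring
    rw [this, hσ, one_mul]
    rfl

lemma tws_mem {σ : ℝ} (hσ : σ ^ 2 = 1) {x : E3} (hx : x ∈ closedBall (0 : E3) 1) :
    tws σ x ∈ closedBall (0 : E3) 1 := by
  have h := rr_tws hσ hx
  rw [mem_ball_iff] at hx ⊢
  rw [tws_2]
  unfold rr at h
  linarith

lemma NN_tws {σ : ℝ} (hσ : σ ^ 2 = 1) {x : E3} (hx : x ∈ closedBall (0 : E3) 1) :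
    NN (tws σ x) = NN x := by
  unfold NN
  rw [rr_tws hσ hx, tws_2]

lemma tws_tws {σ : ℝ} (hσ : σ ^ 2 = 1) {x : E3} (hx : x ∈ closedBall (0 : E3) 1) :
    tws (-σ) (tws σ x) = x := by
  rcases eq_or_ne x 0 with h | h
  · rw [h, tws_zero, tws_zero]
  · have hN := NN_pos hx h
    have hN2 := NN_sq x
    have e0 : tws σ x 0 = (x 0 * cA (rr x) (x 2) + σ * (x 1 * cB (rr x) (x 2))) / NN x := rfl
    have e1 : tws σ x 1 = (x 1 * cA (rr x) (x 2) - σ * (x 0 * cB (rr x) (x 2))) / NN x := rfl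
    refine ext3 ?_ ?_ rfl
    · show (tws σ x 0 * cA (rr (tws σ x)) (tws σ x 2) +
        -σ * (tws σ x 1 * cB (rr (tws σ x)) (tws σ x 2))) / NN (tws σ x) = x 0
      rw [NN_tws hσ hx, rr_tws hσ hx, tws_2, e0, e1]
      rw [div_eq_iff hN.ne']
      have : (x 0 * cA (rr x) (x 2) + σ * (x 1 * cB (rr x) (x 2))) / NN x * cA (rr x) (x 2) +
        -σ * ((x 1 * cA (rr x) (x 2) - σ * (x 0 * cB (rr x) (x 2))) / NN x * cB (rr x) (x 2)) =
        x 0 * (cA (rr x) (x 2) ^ 2 + σ ^ 2 * cB (rr x) (x 2) ^ 2) / NN x := by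
        field_simp
        ring
      rw [this, hσ, one_mul, ← hN2]
      field_simp
    · show (tws σ x 1 * cA (rr (tws σ x)) (tws σ x 2) -
        -σ * (tws σ x 0 * cB (rr (tws σ x)) (tws σ x 2))) / NN (tws σ x) = x 1
      rw [NN_tws hσ hx, rr_tws hσ hx, tws_2, e0, e1]
      rw [div_eq_iff hN.ne']
      have : (x 1 * cA (rr x) (x 2) - σ * (x 0 * cB (rr x) (x 2))) / NN x * cA (rr x) (x 2) -
        -σ * ((x 0 * cA (rr x) (x 2) + σ * (x 1 * cB (rr x) (x 2))) / NN x * cB (rr x) (x 2)) =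
        x 1 * (cA (rr x) (x 2) ^ 2 + σ ^ 2 * cB (rr x) (x 2) ^ 2) / NN x := by
        field_simp
        ring
      rw [this, hσ, one_mul, ← hN2]
      field_simp

lemma continuous_rr : Continuous rr := by unfold rr; fun_prop
lemma continuous_cA : Continuous (fun x : E3 => cA (rr x) (x 2)) := by
  unfold cA
  have := continuous_rr
  fun_prop
lemma continuous_cB : Continuous (fun x : E3 => cB (rr x) (x 2)) := by
  unfold cB
  have := continuous_rr
  fun_prop
lemma continuous_NN : Continuous NN := by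
  unfold NN
  exact Real.continuous_sqrt.comp ((continuous_cA.pow 2).add (continuous_cB.pow 2))

lemma norm_tws {σ : ℝ} (hσ : σ ^ 2 = 1) {x : E3} (hx : x ∈ closedBall (0 : E3) 1) :
    ‖tws σ x‖ = ‖x‖ := by
  have h := rr_tws hσ hx
  have h2 : ‖tws σ x‖ ^ 2 = ‖x‖ ^ 2 := by
    rw [EuclideanSpace.real_norm_sq_eq, EuclideanSpace.real_norm_sq_eq, Fin.sum_univ_three,
      Fin.sum_univ_three, tws_2]
    unfold rr at h
    linarith
  exact (sq_eq_sq₀ (norm_nonneg _) (norm_nonneg _)).1 h2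

lemma continuousOn_tws {σ : ℝ} (hσ : σ ^ 2 = 1) :
    ContinuousOn (tws σ) (closedBall (0 : E3) 1) := by
  intro x hx
  rcases eq_or_ne x 0 with h | h
  · subst h
    unfold ContinuousWithinAt
    rw [tws_zero]
    have h1 : Tendsto (fun x : E3 => ‖x‖) (𝓝[closedBall 0 1] 0) (𝓝 0) :=
      (continuous_norm.tendsto' (0 : E3) 0 norm_zero).mono_left nhdsWithin_le_nhds
    refine squeeze_zero_norm' ?_ h1
    filter_upwards [self_mem_nhdsWithin] with y hy
    rw [norm_tws hσ hy]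
  · have hN := NN_pos hx h
    have hopen : ContinuousOn (tws σ) {y | NN y ≠ 0} := by
      refine continuousOn_mk ?_ ?_ (by fun_prop)
      · refine ContinuousOn.div ?_ continuous_NN.continuousOn fun y hy => hy
        have h1 := continuous_cA
        have h2 := continuous_cB
        exact (((continuous_coord 0).mul h1).add
          (continuous_const.mul ((continuous_coord 1).mul h2))).continuousOn
      · refine ContinuousOn.div ?_ continuous_NN.continuousOn fun y hy => hy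
        have h1 := continuous_cA
        have h2 := continuous_cB
        exact (((continuous_coord 1).mul h1).sub
          (continuous_const.mul ((continuous_coord 0).mul h2))).continuousOn
    have : ContinuousAt (tws σ) x := hopen.continuousAt
      ((isOpen_ne_fun continuous_NN continuous_const).mem_nhds hN.ne')
    exact this.continuousWithinAt

/-- the twist as a homeomorphism of the closed ball -/
noncomputable def twist : closedBall (0 : E3) 1 ≃ₜ closedBall (0 : E3) 1 where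
  toFun x := ⟨tws 1 x, tws_mem (by norm_num) x.2⟩
  invFun x := ⟨tws (-1) x, tws_mem (by norm_num) x.2⟩
  left_inv x := Subtype.ext (tws_tws (σ := 1) (by norm_num) x.2)
  right_inv x := Subtype.ext (by
    have := tws_tws (σ := -1) (by norm_num) x.2
    rwa [neg_neg] at this)
  continuous_toFun := Continuous.subtype_mk
    (continuousOn_iff_continuous_domRestrict.1 (continuousOn_tws (by norm_num))) _
  continuous_invFun := Continuous.subtype_mk
    (continuousOn_iff_continuous_domRestrict.1 (continuousOn_tws (by norm_num))) _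

/-- the harmonic polynomial -/
def uu (x : E3) : ℝ := x 0 * cA (rr x) (x 2) + x 1 * cB (rr x) (x 2)

/-- the untwisted function, normalised -/
noncomputable def vv (x : E3) : ℝ := x 0 * NN x / 21

lemma vv_twist (x : closedBall (0 : E3) 1) : vv (twist x) = uu x / 21 := by
  unfold vv
  congr 1
  show tws 1 x 0 * NN (tws 1 x) = uu x
  rw [NN_tws (by norm_num) x.2]
  have e0 : tws 1 (x : E3) 0 = ((x : E3) 0 * cA (rr x) ((x : E3) 2) +
    1 * ((x : E3) 1 * cB (rr x) ((x : E3) 2))) / NN x := rfl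
  rw [e0, one_mul]
  rcases eq_or_ne (x : E3) 0 with h | h
  · rw [h]; simp [uu]
  · have hN := NN_pos x.2 h
    unfold uu
    field_simp

lemma vv_pt {t p q : ℝ} (ht : t ∈ Icc (-1 : ℝ) 1) :
    vv (pt t p q) = t * √(Gam ((1 - t ^ 2) * q ^ 2) (t ^ 2 + (1 - t ^ 2) * p ^ 2)) / 21 := by
  have h := sq_le_of_mem ht
  unfold vv NN
  rw [Gam_eq]
  unfold rr
  simp only [pt_0, pt_1, pt_2, mul_pow, Real.sq_sqrt h]

lemma vv_strictMono {p q : ℝ} (hpq : p ^ 2 + q ^ 2 ≤ 1) :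
    StrictMonoOn (fun t => vv (pt t p q)) (Icc (-1) 1) := by
  have hH := Hf_strictMono (sq_nonneg p) (sq_nonneg q) hpq
  -- nonnegative part
  have hnn : ∀ t ∈ Icc (0 : ℝ) 1, vv (pt t p q) = √(Hf (p ^ 2) (q ^ 2) (t ^ 2)) / 21 := by
    intro t ht
    rw [vv_pt ⟨by linarith [ht.1], ht.2⟩]
    unfold Hf
    rw [Real.sqrt_mul (sq_nonneg t), Real.sqrt_sq ht.1]
  have hmono : ∀ t ∈ Icc (0 : ℝ) 1, ∀ t' ∈ Icc (0 : ℝ) 1, t < t' →
      vv (pt t p q) < vv (pt t' p q) := by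
    intro t ht t' ht' htt
    rw [hnn t ht, hnn t' ht']
    apply div_lt_div_of_pos_right _ (by norm_num)
    have h1 : t ^ 2 ∈ Icc (0 : ℝ) 1 := ⟨sq_nonneg _, by nlinarith [ht.1, ht.2]⟩
    have h2 : t' ^ 2 ∈ Icc (0 : ℝ) 1 := ⟨sq_nonneg _, by nlinarith [ht'.1, ht'.2]⟩
    have h3 : t ^ 2 < t' ^ 2 := by nlinarith [ht.1]
    have h4 := hH h1 h2 h3
    have h5 : 0 ≤ Hf (p ^ 2) (q ^ 2) (t ^ 2) := by
      unfold Hf
      apply mul_nonneg (sq_nonneg _)
      apply Gam_nonneg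
      apply mul_nonneg _ (sq_nonneg _)
      linarith [h1.2]
    exact Real.sqrt_lt_sqrt h5 h4
  have hodd : ∀ t ∈ Icc (-1 : ℝ) 1, vv (pt (-t) p q) = -vv (pt t p q) := by
    intro t ht
    rw [vv_pt ht, vv_pt ⟨by linarith [ht.2], by linarith [ht.1]⟩]
    simp only [neg_sq]
    ring
  have hz : vv (pt 0 p q) = 0 := by
    rw [vv_pt ⟨by norm_num, by norm_num⟩]; simp
  intro t ht t' ht' htt
  show vv (pt t p q) < vv (pt t' p q)
  rcases le_or_gt 0 t with h | h
  · exact hmono t ⟨h, ht.2⟩ t' ⟨by linarith, ht'.2⟩ htt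
  · have h1 : vv (pt t p q) = -vv (pt (-t) p q) := by rw [hodd t ht, neg_neg]
    rcases le_or_gt t' 0 with h' | h'
    · have h2 : vv (pt t' p q) = -vv (pt (-t') p q) := by rw [hodd t' ht', neg_neg]
      rw [h1, h2]
      have := hmono (-t') ⟨by linarith, by linarith [ht'.1]⟩ (-t) ⟨by linarith, by linarith [ht.1]⟩
        (by linarith)
      linarith
    · have h2 := hmono 0 ⟨le_rfl, zero_le_one⟩ t' ⟨h'.le, ht'.2⟩ h'
      have h3 := hmono 0 ⟨le_rfl, zero_le_one⟩ (-t) ⟨by linarith, by linarith [ht.1]⟩ (by linarith)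
      rw [hz] at h2 h3
      rw [h1]
      linarith

/-- the harmonic polynomial is a coordinate of a self-homeomorphism of the closed ball -/
theorem uu_homeo : ∃ Φ : closedBall (0 : E3) 1 ≃ₜ closedBall (0 : E3) 1,
    ∀ x, (Φ x : E3) 0 = uu x / 21 := by
  have hc : ContinuousOn vv (closedBall 0 1) := by
    unfold vv
    exact (((continuous_coord 0).mul continuous_NN).div_const _).continuousOn
  have h1 : vv !₂[1, 0, 0] = 1 := by
    rw [← pt_one 0 0, vv_pt ⟨by norm_num, le_rfl⟩]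
    have : Gam ((1 - 1 ^ 2) * 0 ^ 2) (1 ^ 2 + (1 - 1 ^ 2) * 0 ^ 2) = 21 ^ 2 := by
      unfold Gam; norm_num
    rw [this, Real.sqrt_sq (by norm_num)]
    norm_num
  have h2 : vv !₂[-1, 0, 0] = -1 := by
    rw [← pt_neg_one 0 0, vv_pt ⟨le_rfl, by norm_num⟩]
    have : Gam ((1 - (-1) ^ 2) * 0 ^ 2) ((-1) ^ 2 + (1 - (-1) ^ 2) * 0 ^ 2) = 21 ^ 2 := by
      unfold Gam; norm_num
    rw [this, Real.sqrt_sq (by norm_num)]
    norm_num
  obtain ⟨Ψ, hΨ⟩ := exists_homeo hc (fun p q hpq => vv_strictMono hpq) h1 h2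
  refine ⟨twist.trans Ψ, fun x => ?_⟩
  show (Ψ (twist x) : E3) 0 = _
  rw [hΨ, vv_twist]

end Pool.Agent.Work.MP_c10eee_an
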